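import Pool.Agent.V1197.VB.LowMain

set_option autoImplicit false

/-!
# The sharp velocity constant for damped linear oscillators is `1 + √d`
-/

namespace Pool.Agent.Results.MP_38ba9c_an.SharpVelocity

open Set MeasureTheory Filter Topology
open Pool.Agent.V1197.VB

/-- The values `c K(A, c)`, for fixed `c`. -/
def MSet (d : ℕ) (c : ℝ) : Set ℝ :=
  {y | ∃ A : Matrix (Fin d) (Fin d) ℝ, A.PosDef ∧ y = c * velConst A c}

/-- The values `liminf_{c → ∞} c K(A, c)`. -/
def LSet (d : ℕ) : Set ℝ :=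
  {y | ∃ A : Matrix (Fin d) (Fin d) ℝ, A.PosDef ∧ y = liminf (fun c => c * velConst A c) atTop}

/-- In every dimension `d ≥ 1`, `M_d = L_d = 1 + √d`. (The first part says that the smallest
constant `K(A, c)` exists.) -/
theorem result (d : ℕ) (hd : 0 < d) :
    (∀ A : Matrix (Fin d) (Fin d) ℝ, A.PosDef → ∀ c, 0 < c →
      IsLeast {K | VelBound A c K} (velConst A c)) ∧
    (∀ c, 0 < c → IsLUB (MSet d c) (1 + √d)) ∧
    IsLUB (LSet d) (1 + √d) := by
  have hd' : (0:ℝ) < d := by exact_mod_cast hd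
  have hsd : 0 < √(d:ℝ) := Real.sqrt_pos.mpr hd'
  have hup : ∀ A : Matrix (Fin d) (Fin d) ℝ, A.PosDef → ∀ c, 0 < c →
      c * velConst A c ≤ 1 + √d := by
    intro A hA c hc
    have h1 := (isLeast_velConst hA hc).2 (velBound_upper hA hc)
    calc c * velConst A c ≤ c * ((1 + √d) / c) := mul_le_mul_of_nonneg_left h1 hc.le
      _ = 1 + √d := by field_simp
  have hnn : ∀ A : Matrix (Fin d) (Fin d) ℝ, A.PosDef → ∀ c, 0 < c →
      0 ≤ c * velConst A c := by
    intro A hA c hc
    exact mul_nonneg hc.le (isLeast_velConst hA hc).1.1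
  have hlim : ∀ B : ℝ, (∀ η, 0 < η → η ≤ 1 / 4 → 1 + √d - 14 * √d * η ≤ B) → 1 + √d ≤ B := by
    intro B hB
    refine le_of_forall_pos_le_add fun ε hε => ?_
    have h1 := hB (min (1 / 4) (ε / (14 * √d))) (by positivity) (min_le_left _ _)
    have h2 : min (1 / 4) (ε / (14 * √d)) ≤ ε / (14 * √d) := min_le_right _ _
    have h3 : 14 * √d * min (1 / 4) (ε / (14 * √d)) ≤ ε := by
      calc 14 * √d * min (1 / 4) (ε / (14 * √d)) ≤ 14 * √d * (ε / (14 * √d)) := by gcongr
        _ = ε := by field_simp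
    linarith
  have hbdd : ∀ A : Matrix (Fin d) (Fin d) ℝ, A.PosDef →
      IsBoundedUnder (· ≥ ·) atTop (fun c => c * velConst A c) := fun A hA =>
    ⟨0, by
      rw [eventually_map]
      filter_upwards [eventually_gt_atTop (0:ℝ)] with c hc using hnn A hA c hc⟩
  have hbdd' : ∀ A : Matrix (Fin d) (Fin d) ℝ, A.PosDef →
      IsBoundedUnder (· ≤ ·) atTop (fun c => c * velConst A c) := fun A hA =>
    ⟨1 + √d, by
      rw [eventually_map]
      filter_upwards [eventually_gt_atTop (0:ℝ)] with c hc using hup A hA c hc⟩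
  refine ⟨fun A hA c hc => isLeast_velConst hA hc, fun c hc => ⟨?_, ?_⟩, ?_, ?_⟩
  · rintro y ⟨A, hA, rfl⟩
    exact hup A hA c hc
  · intro B hB
    refine hlim B fun η hη hη4 => ?_
    exact (testMat_bound hd (by positivity) hη hη4 hc le_rfl).trans
      (hB ⟨testMat d (c ^ 2) η, testMat_posDef (by positivity) hη, rfl⟩)
  · rintro y ⟨A, hA, rfl⟩
    refine (liminf_le_limsup (hbdd' A hA) (hbdd A hA)).trans ?_
    refine limsup_le_of_le ((hbdd A hA).isCobounded_flip) ?_
    filter_upwards [eventually_gt_atTop (0:ℝ)] with c hc using hup A hA c hc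
  · intro B hB
    refine hlim B fun η hη hη4 => ?_
    refine le_trans ?_ (hB ⟨testMat d 1 η, testMat_posDef one_pos hη, rfl⟩)
    refine le_liminf_of_le ((hbdd' _ (testMat_posDef one_pos hη)).isCobounded_flip) ?_
    filter_upwards [eventually_ge_atTop (1:ℝ)] with c hc
    exact testMat_bound hd one_pos hη hη4 (by linarith) (by nlinarith)

end Pool.Agent.Results.MP_38ba9c_an.SharpVelocity
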